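import Pool.Agent.Helper76.CY.St.Stubs
import Pool.Agent.Helper76.CY.AlgInd
import Pool.Agent.Helper15.PotDense

/-!
# Assembly of project CY from the stubs
-/

namespace Pool.Agent.Helper76.CY

open MvPolynomial St AlgebraicGeometry CategoryTheory Pool.Agent.Helper15

universe u

theorem mult_indep {K M : Type*} [Field K] [CharZero K] [Field M] [Algebra K M]
    (χ : Polynomial K) (hχ : Irreducible χ) (hdeg : χ.natDegree = 11)
    (μ : Fin 11 → M) (hμ : Function.Injective μ)
    (hroot : ∀ z : M, Polynomial.aeval z χ = 0 ↔ ∃ i, μ i = z) (x y : M)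
    (hx : Polynomial.aeval x χ = 0) (hy : Polynomial.aeval y χ = 0)
    (hxy : ∀ n : ℕ, 0 < n → x ^ n ≠ y ^ n) (a b : Fin 11 → ℕ)
    (hab : ∑ i, a i = ∑ i, b i) (h : ∏ i, μ i ^ a i = ∏ i, μ i ^ b i) : a = b := by
  by_contra hne
  have h0 : ∀ i, μ i ≠ 0 := by
    intro i hi
    have h1 : Polynomial.aeval (0 : M) χ = 0 := by
      rw [hroot]
      exact ⟨i, hi⟩
    have h2 : χ.coeff 0 = 0 := by
      have h3 : algebraMap K M (χ.coeff 0) = 0 := by
        rw [Polynomial.coeff_zero_eq_aeval_zero', h1]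
      exact (map_eq_zero _).1 h3
    have h3 : Polynomial.X ∣ χ := Polynomial.X_dvd_iff.2 h2
    have h4 := (Polynomial.irreducible_X.associated_of_dvd hχ h3)
    have h5 := Polynomial.natDegree_eq_of_degree_eq (Polynomial.degree_eq_degree_of_associated h4)
    rw [Polynomial.natDegree_X, hdeg] at h5
    omega
  obtain ⟨ρ, hρ, hcl⟩ := exists_perm χ hχ hdeg μ hμ (fun i => (hroot _).2 ⟨i, rfl⟩)
  obtain ⟨N, hN, hall⟩ := relation_pow μ h0 ρ hρ hcl a b hne hab h
  obtain ⟨i, rfl⟩ := (hroot x).1 hx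
  obtain ⟨j, rfl⟩ := (hroot y).1 hy
  exact hxy N hN (hall i j)

section arcs

variable {K O : Type*} [Field K] [CharZero K] [CommRing O] [Algebra K O] (t : O)
  (hU : ∀ (x : O) (c : K), c ≠ 0 → x - algebraMap K O c ∈ Ideal.span {t} → IsUnit x)

include hU

theorem iterate_arc (D : Ten K) (hW : ∀ n : ℕ, Window (shift^[n] D))
    (B : ℕ → (Idx → K) →ₗ[K] (Idx → K)) (hB : ∀ n τ, IsStep (shift^[n] D) τ (B n τ))
    (τ : Idx → K) (a : Idx → O) (ha : IsArc t D τ a) (n : ℕ) :
    ∃ a' : Idx → O, IsArc t (shift^[n] D) (compB B n τ) a' := by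
  induction n with
  | zero => exact ⟨a, ha⟩
  | succ n ih =>
    obtain ⟨a', ha'⟩ := ih
    rw [Function.iterate_succ_apply']
    exact step_arc t hU _ (hW n) _ _ (hB n _) a' ha'

theorem period_arc (D : Ten K) (hW : ∀ n : ℕ, Window (shift^[n] D))
    (B : ℕ → (Idx → K) →ₗ[K] (Idx → K)) (hB : ∀ n τ, IsStep (shift^[n] D) τ (B n τ))
    (r : ℕ) (hr : shift^[r] D = D) (τ : Idx → K) (a : Idx → O) (ha : IsArc t D τ a) (k : ℕ) :
    ∃ a' : Idx → O, IsArc t D ((compB B r ^ k) τ) a' := by
  induction k with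
  | zero => exact ⟨a, ha⟩
  | succ k ih =>
    obtain ⟨a', ha'⟩ := ih
    obtain ⟨a'', ha''⟩ := iterate_arc t hU D hW B hB _ a' ha' r
    rw [hr] at ha''
    refine ⟨a'', ?_⟩
    rw [pow_succ', Module.End.mul_apply]
    exact ha''

end arcs

/-- The algebraic core: the functions vanishing on all the arcs of the orbit are the functions
vanishing near the origin, which form a prime ideal. -/
theorem arcs_core {K O : Type*} [Field K] [CharZero K] [CommRing O] [IsDomain O] [Algebra K O]
    (t : O) (ht0 : t ≠ 0) (htu : ¬ IsUnit t)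
    (hU : ∀ (x : O) (c : K), c ≠ 0 → x - algebraMap K O c ∈ Ideal.span {t} → IsUnit x)
    (I : Ideal (MvPolynomial Idx K)) (π : (Idx → K) →ₗ[K] (Idx → K))
    (hπ : ∀ q, X q - linMap π q ∈ I ⊔ idealOfVars Idx K ^ 2)
    (τ : ℕ → Idx → K) (a : ℕ → Idx → O)
    (ha : ∀ n q, a n q - t * algebraMap K O (τ n q) ∈ Ideal.span {t ^ 2})
    (haI : ∀ n, ∀ g ∈ I, aeval (a n) g = 0)
    (hspan : ∀ w, π w ∈ Submodule.span K (Set.range (fun i : Fin 11 => τ i)))
    (horb : ∀ (f : MvPolynomial Idx K) (d : ℕ), f.IsHomogeneous d → (∀ n, eval (τ n) f = 0) →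
      aeval (fun q => ∑ i : Fin 11, C (τ i q) * X i : Idx → MvPolynomial (Fin 11) K) f = 0) :
    (compIdeal I).IsPrime ∧ (∀ n, ∀ f ∈ compIdeal I, aeval (a n) f = 0) ∧
      (∀ f, f ∉ compIdeal I → ∃ n, aeval (a n) f ≠ 0) ∧
      (LinearIndependent K (fun i : Fin 11 => τ i) → ∃ ℓ : Fin 11 → MvPolynomial Idx K,
        ∀ G : MvPolynomial (Fin 11) K, aeval ℓ G ∈ compIdeal I → G = 0) := by
  -- values of elements of the component ideal
  have hcomp : ∀ n, ∀ f ∈ compIdeal I, aeval (a n) f = 0 := by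
    rintro n f ⟨s, hs, hsf⟩
    have h1 := haI n _ hsf
    rw [map_mul] at h1
    have h2 := arc_eval t (τ n) (a n) (ha n) 0 s (by simp)
    have h3 : IsUnit (aeval (a n) s) := by
      apply hU _ (constantCoeff s) hs
      rw [zero_add, pow_one, pow_zero, one_mul, homogeneousComponent_zero, eval_C] at h2
      exact h2
    exact (h3.mul_right_eq_zero).1 h1
  -- nonvanishing
  have hnz : ∀ (n d : ℕ) (g : MvPolynomial Idx K), g ∈ idealOfVars Idx K ^ d →
      eval (τ n) (homogeneousComponent d g) ≠ 0 → aeval (a n) g ≠ 0 := by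
    intro n d g hg hne h0
    have h2 := arc_eval t (τ n) (a n) (ha n) d g hg
    rw [h0, zero_sub, neg_mem_iff, Ideal.mem_span_singleton] at h2
    obtain ⟨c, hc⟩ := h2
    have h3 : algebraMap K O (eval (τ n) (homogeneousComponent d g)) = t * c := by
      have : t ^ d * algebraMap K O (eval (τ n) (homogeneousComponent d g)) = t ^ d * (t * c) := by
        rw [hc]; ring
      exact mul_left_cancel₀ (pow_ne_zero _ ht0) this
    apply htu
    have h8 : IsUnit (algebraMap K O (eval (τ n) (homogeneousComponent d g))) :=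
      (isUnit_iff_ne_zero.2 hne).map _
    rw [h3] at h8
    exact isUnit_of_mul_isUnit_left h8
  -- key
  have key : ∀ f g, f ∉ compIdeal I → g ∉ compIdeal I →
      ∃ n, aeval (a n) f ≠ 0 ∧ aeval (a n) g ≠ 0 := by
    intro f g hf hg
    obtain ⟨d, f1, hf1, hff, hf2⟩ := local_form I π hπ f hf
    obtain ⟨e, g1, hg1, hgg, hg2⟩ := local_form I π hπ g hg
    have h1 : aeval (linMap π) (homogeneousComponent d f1 * homogeneousComponent e g1) ≠ 0 := by
      rw [map_mul]
      exact mul_ne_zero hf2 hg2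
    have h2 : ∃ n, eval (τ n) (homogeneousComponent d f1 * homogeneousComponent e g1) ≠ 0 := by
      by_contra hcon
      push Not at hcon
      exact h1 (span_factor _ π hspan _ (horb _ (d + e)
        ((homogeneousComponent_isHomogeneous d f1).mul (homogeneousComponent_isHomogeneous e g1))
        hcon))
    obtain ⟨n, hn⟩ := h2
    rw [map_mul] at hn
    refine ⟨n, ?_, ?_⟩
    · have h3 := hnz n d f1 hf1 (left_ne_zero_of_mul hn)
      have h4 := haI n _ hff
      rw [map_sub, sub_eq_zero] at h4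
      rwa [h4]
    · have h3 := hnz n e g1 hg1 (right_ne_zero_of_mul hn)
      have h4 := haI n _ hgg
      rw [map_sub, sub_eq_zero] at h4
      rwa [h4]
  refine ⟨⟨?_, ?_⟩, hcomp, ?_, ?_⟩
  · rw [Ideal.ne_top_iff_one]
    intro h1
    have := hcomp 0 _ h1
    rw [map_one] at this
    exact one_ne_zero this
  · intro f g hfg
    by_contra hcon
    push Not at hcon
    obtain ⟨n, h1, h2⟩ := key f g hcon.1 hcon.2
    have h3 := hcomp n _ hfg
    rw [map_mul] at h3
    exact mul_ne_zero h1 h2 h3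
  · intro f hf
    obtain ⟨n, h1, _⟩ := key f f hf hf
    exact ⟨n, h1⟩
  · intro hli
    obtain ⟨g, hg⟩ : ∃ g : (Idx → K) →ₗ[K] (Fin 11 → K), ∀ i : Fin 11,
        g (τ i) = Pi.single i 1 := by
      obtain ⟨g, hg⟩ := (Finsupp.linearCombination K (fun i : Fin 11 => τ i)).exists_leftInverse_of_injective
        (LinearMap.ker_eq_bot.2 hli)
      refine ⟨(Finsupp.linearEquivFunOnFinite K K (Fin 11)).toLinearMap ∘ₗ g, fun i => ?_⟩
      have h1 := LinearMap.congr_fun hg (Finsupp.single i 1)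
      rw [LinearMap.comp_apply, Finsupp.linearCombination_single, one_smul] at h1
      rw [LinearMap.comp_apply, h1]
      simp
    refine ⟨fun k => lin ((LinearMap.proj k).comp g), fun G hG => ?_⟩
    by_contra hne
    have hex : ∃ d, homogeneousComponent d G ≠ 0 := by
      by_contra hcon
      push Not at hcon
      apply hne
      rw [← sum_homogeneousComponent G]
      exact Finset.sum_eq_zero fun d _ => hcon d
    classical
    set d := Nat.find hex with hd
    have hd1 : homogeneousComponent d G ≠ 0 := Nat.find_spec hex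
    have hd2 : ∀ e < d, homogeneousComponent e G = 0 := fun e he => by
      by_contra h
      exact Nat.find_min hex he h
    obtain ⟨h1, h2⟩ := aeval_order (fun k : Fin 11 => lin ((LinearMap.proj k).comp g))
      (fun k => lin_isHomogeneous _) G d hd2
    have h3 : ∀ n, eval (τ n) (homogeneousComponent d (aeval (fun k : Fin 11 =>
        lin ((LinearMap.proj k).comp g)) G)) = 0 := by
      intro n
      by_contra h
      exact hnz n d _ h1 h (hcomp n _ hG)
    have h4 := horb _ d (homogeneousComponent_isHomogeneous d _) h3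
    rw [h2] at h4
    have h5 : (aeval (fun q => ∑ i : Fin 11, C (τ i q) * X i :
        Idx → MvPolynomial (Fin 11) K)).comp (aeval (fun k : Fin 11 =>
        lin ((LinearMap.proj k).comp g))) = AlgHom.id K (MvPolynomial (Fin 11) K) := by
      apply MvPolynomial.algHom_ext
      intro k
      rw [AlgHom.comp_apply, aeval_X, aeval_lin (fun i : Fin 11 => τ i)]
      simp only [LinearMap.comp_apply, hg, LinearMap.proj_apply, Pi.single_apply, AlgHom.id_apply]
      rw [Finset.sum_eq_single k]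
      · simp
      · intro b _ hb
        rw [if_neg (Ne.symm hb), map_zero, zero_mul]
      · intro h
        exact absurd (Finset.mem_univ k) h
    have h6 := DFunLike.congr_fun h5 (homogeneousComponent d G)
    rw [AlgHom.comp_apply, h4, AlgHom.id_apply] at h6
    exact hd1 h6.symm

/-- The criterion, affine form. -/
theorem criterion_affine {K : Type*} [Field K] [CharZero K] (D : Ten K)
    (hW : ∀ n : ℕ, Window (shift^[n] D))
    (B : ℕ → (Idx → K) →ₗ[K] (Idx → K)) (hB : ∀ n τ, IsStep (shift^[n] D) τ (B n τ))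
    (r : ℕ) (hr : shift^[r] D = D) (τ : Idx → K) (hτ : τ ≠ 0) (a : Idx → LocO K)
    (ha : IsArc (tO K) D τ a) (χ : Polynomial K) (hχ : Irreducible χ) (hdeg : χ.natDegree = 11)
    (hBχ : Polynomial.aeval (compB B r) χ τ = 0) (L : Type*) [Field L] [Algebra K L] (x y : L)
    (hx : Polynomial.aeval x χ = 0) (hy : Polynomial.aeval y χ = 0)
    (hxy : ∀ n : ℕ, 0 < n → x ^ n ≠ y ^ n) :
    (compIdeal (fanoIdeal (cubic D))).IsPrime ∧
      (∀ f, f ∉ compIdeal (fanoIdeal (cubic D)) → ∃ y : Idx → K, eval y f ≠ 0 ∧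
        ∀ g ∈ compIdeal (fanoIdeal (cubic D)), eval y g = 0) ∧
      ∃ ℓ : Fin 11 → MvPolynomial Idx K, ∀ G : MvPolynomial (Fin 11) K,
        aeval ℓ G ∈ compIdeal (fanoIdeal (cubic D)) → G = 0 := by
  set M := AlgebraicClosure L
  obtain ⟨μ, hμ, hroot⟩ := exists_roots (K := K) (M := M) χ hχ hdeg
  have hind := mult_indep χ hχ hdeg μ hμ hroot (algebraMap L M x) (algebraMap L M y)
    (by rw [Polynomial.aeval_algebraMap_apply, hx, map_zero])
    (by rw [Polynomial.aeval_algebraMap_apply, hy, map_zero])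
    (fun n hn h => hxy n hn (by
      rw [← map_pow, ← map_pow] at h
      exact (algebraMap L M).injective h))
  have hU := isUnit_of_res K
  have harc := period_arc (tO K) hU D hW B hB r hr τ a ha
  choose A hA using harc
  have hD : Window D := hW 0
  obtain ⟨π, hπ0, hπ⟩ := tangent_proj D hD
  have hli := linIndep_orbit χ hχ hdeg (compB B r) τ hτ hBχ
  have htan : ∀ n i j k, tanVal D ((compB B r ^ n) τ) i j k = 0 := fun n =>
    (hA n).tanVal_eq_zero (tO_ne_zero K) (tO_not_isUnit K) hD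
  have hspan : ∀ w, π w ∈ Submodule.span K (Set.range (fun i : Fin 11 =>
      (fun n : ℕ => (compB B r ^ n) τ) i)) := by
    intro w
    exact tangent_span D hD (fun i : Fin 11 => (compB B r ^ (i : ℕ)) τ) hli
      (fun l => htan l) (π w) (hπ0 w)
  have hrec : ∀ n q, ∑ i ∈ Finset.range 12, χ.coeff i * ((compB B r ^ (n + i)) τ) q = 0 := by
    intro n q
    have h1 : (compB B r ^ n) (Polynomial.aeval (compB B r) χ τ) = 0 := by rw [hBχ, map_zero]
    rw [Polynomial.aeval_eq_sum_range, hdeg, LinearMap.sum_apply, map_sum] at h1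
    have h2 := congrFun h1 q
    rw [Finset.sum_apply] at h2
    rw [Pi.zero_apply] at h2
    rw [← h2]
    refine Finset.sum_congr rfl fun i _ => ?_
    rw [LinearMap.smul_apply, map_smul, Pi.smul_apply, smul_eq_mul, pow_add,
      Module.End.mul_apply]
  have horb : ∀ (f : MvPolynomial Idx K) (d : ℕ), f.IsHomogeneous d →
      (∀ n, eval ((fun n : ℕ => (compB B r ^ n) τ) n) f = 0) →
      aeval (fun q => ∑ i : Fin 11, C ((fun n : ℕ => (compB B r ^ n) τ) i q) * X i :
        Idx → MvPolynomial (Fin 11) K) f = 0 := by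
    intro f d hf hv
    exact orbit_form χ hdeg μ hμ (fun i => (hroot _).2 ⟨i, rfl⟩) hind
      (fun n : ℕ => (compB B r ^ n) τ) hrec f d hf hv
  obtain ⟨h1, h2, h3, h4⟩ := arcs_core (tO K) (tO_ne_zero K) (tO_not_isUnit K) hU
    (fanoIdeal (cubic D)) π (hπ _ (tri_mem_fanoIdeal D hD.swap12 hD.swap23))
    (fun n : ℕ => (compB B r ^ n) τ) A (fun n => (hA n).tangent)
    (fun n g hg => aeval_fanoIdeal D (A n) (hA n).plane g hg) hspan horb
  refine ⟨h1, fun f hf => ?_, h4 hli⟩
  obtain ⟨n, hn⟩ := h3 f hf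
  obtain ⟨y, hy1, hy2⟩ := exists_point (A n) f hn
  exact ⟨y, hy1, fun g hg => hy2 g (h2 n g hg)⟩

end Pool.Agent.Helper76.CY
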