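import Pool.Agent.Helper76.CY.Ex

/-!
# Stubs for the explicit cubics
-/

namespace Pool.Agent.Helper76.CY.St

open MvPolynomial Pool.Agent.Helper76.CY

/-! ## CY-E1 -/

theorem cubic_Dex (u v : ℤ) : cubic (Dex u v) = C 6 * Fex u v := by
  sorry

theorem shift_Dex (u v : ℤ) : shift (Dex u v) = Dex u v := by
  sorry

/-! ## CY-E2 -/

theorem window_Dex (u v : ℤ) : Window (Dex u v) := by
  sorry

/-! ## CY-E3 -/

theorem isStep_Bfun (u v : ℤ) (τ : Idx → ℚ) : IsStep (Dex u v) τ (Bfun u v τ) := by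
  sorry

/-! ## CY-E4 -/

theorem curve_pex (u v : ℤ) (i j k : Fin 3) :
    tri (Dex u v) (row pex i) (row pex j) (row pex k) = 0 := by
  sorry

theorem isArc_pex (u v : ℤ) :
    IsArc (tO ℚ) (Dex u v) tex (fun q => algebraMap (Polynomial ℚ) (LocO ℚ) (pex q)) := by
  sorry

/-! ## CY-E5 -/

theorem exists_Bex (u v : ℤ) : ∃ B : (Idx → ℚ) →ₗ[ℚ] (Idx → ℚ), (∀ τ, B τ = Bfun u v τ) ∧
    Polynomial.aeval B (chiQ u v) tex = 0 := by
  sorry

/-! ## CY-E6 -/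

theorem chiQ_natDegree (u v : ℤ) : (chiQ u v).natDegree = 11 := by
  sorry

theorem chiQ_irreducible (u v : ℤ) (hu : u % 3 = 1) (hv : v % 3 = 2) :
    Irreducible (chiQ u v) := by
  sorry

/-! ## CY-E7 -/

theorem chiQ_real (u v : ℤ) (h : 14 + 6 * u ^ 2 < 8 * u + 5 * v + 3 * u * v) :
    ∃ x y : ℝ, Polynomial.aeval x (chiQ u v) = 0 ∧ Polynomial.aeval y (chiQ u v) = 0 ∧
      ∀ n : ℕ, 0 < n → x ^ n ≠ y ^ n := by
  sorry

end Pool.Agent.Helper76.CY.St
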