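import Pool.Agent.Helper76.CY.Lin

/-!
# Stubs of project CY (statements only, to be proved in separate files)
-/

namespace Pool.Agent.Helper76.CY.St

open MvPolynomial Pool.Agent.Helper76.CY

/-! ## CY-1: the roots of an irreducible polynomial of degree 11 -/

theorem exists_roots {K M : Type*} [Field K] [CharZero K] [Field M] [Algebra K M]
    [IsAlgClosed M] (χ : Polynomial K) (hχ : Irreducible χ) (hdeg : χ.natDegree = 11) :
    ∃ μ : Fin 11 → M, Function.Injective μ ∧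
      ∀ z : M, Polynomial.aeval z χ = 0 ↔ ∃ i, μ i = z := by
  sorry

theorem exists_perm {K M : Type*} [Field K] [CharZero K] [Field M] [Algebra K M]
    (χ : Polynomial K) (hχ : Irreducible χ) (hdeg : χ.natDegree = 11) (μ : Fin 11 → M)
    (hμ : Function.Injective μ) (hroot : ∀ i, Polynomial.aeval (μ i) χ = 0) :
    ∃ ρ : Equiv.Perm (Fin 11), orderOf ρ = 11 ∧ ∀ a b : Fin 11 → ℕ,
      ∏ i, μ i ^ a i = ∏ i, μ i ^ b i → ∏ i, μ (ρ i) ^ a i = ∏ i, μ (ρ i) ^ b i := by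
  sorry

/-! ## CY-2: an integral Bezout identity -/

theorem bezout_int (P : Polynomial ℤ) (hP : P ≠ 0) (hdeg : P.natDegree ≤ 10)
    (h1 : P.eval 1 = 0) : ∃ (N : ℕ) (A B : Polynomial ℤ), 0 < N ∧
      A * P + B * (Polynomial.X ^ 11 - 1) = Polynomial.C (N : ℤ) * (Polynomial.X - 1) := by
  sorry

/-! ## CY-3: a cyclic multiplicative relation (may use `bezout_int`) -/

theorem relation_pow {M : Type*} [Field M] (μ : Fin 11 → M) (h0 : ∀ i, μ i ≠ 0)
    (ρ : Equiv.Perm (Fin 11)) (hρ : orderOf ρ = 11)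
    (hcl : ∀ a b : Fin 11 → ℕ, ∏ i, μ i ^ a i = ∏ i, μ i ^ b i →
      ∏ i, μ (ρ i) ^ a i = ∏ i, μ (ρ i) ^ b i)
    (a b : Fin 11 → ℕ) (hab : a ≠ b) (hsum : ∑ i, a i = ∑ i, b i)
    (hrel : ∏ i, μ i ^ a i = ∏ i, μ i ^ b i) :
    ∃ N : ℕ, 0 < N ∧ ∀ i j, μ i ^ N = μ j ^ N := by
  sorry

/-! ## CY-4: linear recurrences and forms -/

theorem recurrence_sum {M ι : Type*} [Field M] (χ : Polynomial M) (hdeg : χ.natDegree = 11)
    (μ : Fin 11 → M) (hμ : Function.Injective μ) (hroot : ∀ i, Polynomial.eval (μ i) χ = 0)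
    (v : ℕ → ι → M)
    (hrec : ∀ n q, ∑ i ∈ Finset.range 12, χ.coeff i * v (n + i) q = 0) :
    ∃ w : Fin 11 → ι → M, ∀ n q, v n q = ∑ i, μ i ^ n * w i q := by
  sorry

theorem form_zero {M : Type*} [Field M] (μ : Fin 11 → M)
    (hind : ∀ a b : Fin 11 → ℕ, ∑ i, a i = ∑ i, b i → ∏ i, μ i ^ a i = ∏ i, μ i ^ b i → a = b)
    (G : MvPolynomial (Fin 11) M) (d : ℕ) (hG : G.IsHomogeneous d)
    (h : ∀ n : ℕ, eval (fun i => μ i ^ n) G = 0) : G = 0 := by
  sorry

/-! ## CY-5: forms on the orbit (may use CY-4) -/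

theorem orbit_form {K M ι : Type*} [Field K] [Field M] [Algebra K M] (χ : Polynomial K)
    (hdeg : χ.natDegree = 11) (μ : Fin 11 → M) (hμ : Function.Injective μ)
    (hroot : ∀ i, Polynomial.aeval (μ i) χ = 0)
    (hind : ∀ a b : Fin 11 → ℕ, ∑ i, a i = ∑ i, b i → ∏ i, μ i ^ a i = ∏ i, μ i ^ b i → a = b)
    (τ : ℕ → ι → K)
    (hrec : ∀ n q, ∑ i ∈ Finset.range 12, χ.coeff i * τ (n + i) q = 0)
    (f : MvPolynomial ι K) (d : ℕ) (hf : f.IsHomogeneous d) (hv : ∀ n, eval (τ n) f = 0) :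
    aeval (fun q => ∑ i : Fin 11, C (τ i q) * X i : ι → MvPolynomial (Fin 11) K) f = 0 := by
  sorry

theorem linIndep_orbit {K V : Type*} [Field K] [AddCommGroup V] [Module K V]
    (χ : Polynomial K) (hχ : Irreducible χ) (hdeg : χ.natDegree = 11) (B : V →ₗ[K] V) (τ : V)
    (hτ : τ ≠ 0) (h : Polynomial.aeval B χ τ = 0) :
    LinearIndependent K (fun i : Fin 11 => (B ^ (i : ℕ)) τ) := by
  sorry

/-! ## CY-6: the local form of a function (Krull intersection theorem) -/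

theorem local_form {ι K : Type*} [Fintype ι] [DecidableEq ι] [Field K]
    (I : Ideal (MvPolynomial ι K)) (π : (ι → K) →ₗ[K] (ι → K))
    (hπ : ∀ q, X q - linMap π q ∈ I ⊔ idealOfVars ι K ^ 2) (f : MvPolynomial ι K)
    (hf : f ∉ compIdeal I) : ∃ (d : ℕ) (g : MvPolynomial ι K), g ∈ idealOfVars ι K ^ d ∧
      f - g ∈ I ∧ aeval (linMap π) (homogeneousComponent d g) ≠ 0 := by
  sorry

/-! ## CY-7: values on arcs, and the local ring `LocO K` -/

theorem arc_eval {ι K O : Type*} [Field K] [CommRing O] [Algebra K O] (t : O) (τ : ι → K)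
    (a : ι → O) (ha : ∀ q, a q - t * algebraMap K O (τ q) ∈ Ideal.span {t ^ 2}) (d : ℕ)
    (g : MvPolynomial ι K) (hg : g ∈ idealOfVars ι K ^ d) :
    aeval a g - t ^ d * algebraMap K O (eval τ (homogeneousComponent d g)) ∈
      Ideal.span {t ^ (d + 1)} := by
  sorry

theorem tO_ne_zero (K : Type*) [Field K] : tO K ≠ 0 := by
  sorry

theorem tO_not_isUnit (K : Type*) [Field K] : ¬ IsUnit (tO K) := by
  sorry

theorem isUnit_of_res (K : Type*) [Field K] (x : LocO K) (c : K) (hc : c ≠ 0)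
    (h : x - algebraMap K (LocO K) c ∈ Ideal.span {tO K}) : IsUnit x := by
  sorry

theorem exists_point {ι K : Type*} [Finite ι] [Field K] [Infinite K] (a : ι → LocO K)
    (f : MvPolynomial ι K) (hf : aeval a f ≠ 0) :
    ∃ y : ι → K, eval y f ≠ 0 ∧ ∀ g : MvPolynomial ι K, aeval a g = 0 → eval y g = 0 := by
  sorry

/-! ## CY-8: the tangent space of the variety of planes -/

theorem exists_section {K : Type*} [Field K] (D : Ten K) (hD : Window D) :
    ∃ N : (Fin 3 → Fin 3 → K) →ₗ[K] (Fin 10 → K),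
      (∀ q, N q 0 = 0 ∧ N q 1 = 0 ∧ N q 2 = 0 ∧ N q 3 = 0) ∧
      ∀ q, (∀ i j, q i j = q j i) →
        ∀ i j, tri D (N q) (bv K (c3 i)) (bv K (c3 j)) = q i j := by
  sorry

/-! ## CY-9: the tangent space, continued (may use CY-8) -/

theorem tangent_proj {K : Type*} [Field K] [CharZero K] (D : Ten K) (hD : Window D) :
    ∃ π : (Idx → K) →ₗ[K] (Idx → K), (∀ v i j k, tanVal D (π v) i j k = 0) ∧
      ∀ I : Ideal (MvPolynomial Idx K),
        (∀ i j k : Fin 3, tri D (row X i) (row X j) (row X k) ∈ I) →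
        ∀ q, X q - linMap π q ∈ I ⊔ idealOfVars Idx K ^ 2 := by
  sorry

/-! ## CY-10: the tangent space has dimension 11 -/

theorem tangent_span {K : Type*} [Field K] [CharZero K] (D : Ten K) (hD : Window D)
    (v : Fin 11 → Idx → K) (hv : LinearIndependent K v)
    (h0 : ∀ l i j k, tanVal D (v l) i j k = 0) (w : Idx → K)
    (hw : ∀ i j k, tanVal D w i j k = 0) : w ∈ Submodule.span K (Set.range v) := by
  sorry

/-! ## CY-11: the residual plane -/

theorem solve_normal {K O : Type*} [Field K] [CommRing O] [Algebra K O] (t : O)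
    (hU : ∀ (x : O) (c : K), c ≠ 0 → x - algebraMap K O c ∈ Ideal.span {t} → IsUnit x)
    (D : Ten K) (hD : Window D) (τ : Idx → K) (a : Idx → O) (ha : IsArc t D τ a)
    (m0 : Fin 10 → K) (h0 : m0 0 = 0) (h1 : m0 1 = 0) (h2 : m0 2 = 0) (h3 : m0 3 = 0)
    (hm0 : ∀ i j : Fin 3, tri D m0 (bv K (c3 i)) (bv K (c3 j)) +
      tri D (bv K 3) (tv τ i) (bv K (c3 j)) + tri D (bv K 3) (bv K (c3 i)) (tv τ j) = 0) :
    ∃ m : Fin 10 → O, m 0 = 0 ∧ m 1 = 0 ∧ m 2 = 0 ∧ m 3 = 0 ∧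
      (∀ i j : Fin 3, tri D (bv O 3 + m) (row a i) (row a j) = 0) ∧
      ∀ k, m k - t * algebraMap K O (m0 k) ∈ Ideal.span {t ^ 2} := by
  sorry

/-! ## CY-12: the residual plane lies in the cubic -/

theorem plane_vanish {K R : Type*} [Field K] [CommRing R] [Algebra K R] (D : Ten K)
    (h12 : ∀ i j k, D i j k = D j i k) (h23 : ∀ i j k, D i j k = D i k j)
    (u : Fin 3 → Fin 10 → R) (n : Fin 10 → R) (hu : ∀ i j k, tri D (u i) (u j) (u k) = 0)
    (hn : ∀ i j, tri D n (u i) (u j) = 0) (κ1 κ2 κ3 : R)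
    (h1 : κ1 * tri D (u 0) n n = tri D (u 1) n n)
    (h2 : κ2 * tri D (u 0) n n = tri D (u 2) n n)
    (h3 : 3 * (κ3 * tri D (u 0) n n) = tri D n n n) (w : Fin 3 → Fin 10 → R)
    (hw : w = ![u 1 - κ1 • u 0, u 2 - κ2 • u 0, n - κ3 • u 0]) (i j k : Fin 3) :
    tri D (w i) (w j) (w k) = 0 := by
  sorry

theorem plane_comb {K R : Type*} [Field K] [CommRing R] [Algebra K R] (D : Ten K)
    (w : Fin 3 → Fin 10 → R) (hw : ∀ i j k, tri D (w i) (w j) (w k) = 0)
    (M : Fin 3 → Fin 3 → R) (i j k : Fin 3) :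
    tri D (∑ l, M i l • w l) (∑ l, M j l • w l) (∑ l, M k l • w l) = 0 := by
  sorry

/-! ## CY-13: one step of the self-map on arcs (may use CY-11, CY-12) -/

theorem step_arc {K O : Type*} [Field K] [CharZero K] [CommRing O] [Algebra K O] (t : O)
    (hU : ∀ (x : O) (c : K), c ≠ 0 → x - algebraMap K O c ∈ Ideal.span {t} → IsUnit x)
    (D : Ten K) (hD : Window D) (τ τ' : Idx → K) (hτ : IsStep D τ τ') (a : Idx → O)
    (ha : IsArc t D τ a) : ∃ a' : Idx → O, IsArc t (shift D) τ' a' := by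
  sorry

/-! ## CY-14: the ideal of the Fano scheme -/

theorem aeval_fanoIdeal {K R : Type*} [Field K] [CommRing R] [Algebra K R] (D : Ten K)
    (a : Idx → R) (h : ∀ i j k : Fin 3, tri D (row a i) (row a j) (row a k) = 0)
    (g : MvPolynomial Idx K) (hg : g ∈ fanoIdeal (cubic D)) : aeval a g = 0 := by
  sorry

theorem tri_mem_fanoIdeal {K : Type*} [Field K] [CharZero K] (D : Ten K)
    (h12 : ∀ i j k, D i j k = D j i k) (h23 : ∀ i j k, D i j k = D i k j) (i j k : Fin 3) :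
    tri D (row X i) (row X j) (row X k) ∈ fanoIdeal (cubic D) := by
  sorry

theorem fanoIdeal_C_mul {K : Type*} [Field K] (c : K) (hc : c ≠ 0)
    (F : MvPolynomial (Fin 10) K) : fanoIdeal (C c * F) = fanoIdeal F := by
  sorry

end Pool.Agent.Helper76.CY.St
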