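import Pool.Agent.Helper76.CY.Criterion
import Pool.Agent.Helper76.CY.St.ExStubs
import Pool.Agent.Helper76.CY.St.Stubs

/-!
# The explicit cubics
-/

namespace Pool.Agent.Helper76.CY

open MvPolynomial AlgebraicGeometry CategoryTheory Pool.Agent.Helper15
open St


theorem example_family (u v : ℤ) (hu : u % 3 = 1) (hv : v % 3 = 2)
    (h : 14 + 6 * u ^ 2 < 8 * u + 5 * v + 3 * u * v) :
    ∃ P : Ideal (MvPolynomial Idx ℚ), IsComponentAtOrigin (fanoIdeal (Fex u v)) P ∧
      (∃ ℓ : Fin 11 → MvPolynomial Idx ℚ, AlgebraicIndependent ℚ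
        (fun i => (Ideal.Quotient.mk P (ℓ i) : MvPolynomial Idx ℚ ⧸ P))) ∧
      ∀ (X : Scheme.{0}) (s : X ⟶ Spec (CommRingCat.of ℚ)) [IrreducibleSpace X],
        BirationalOver ℚ X (affineScheme P) s (affineStr P) → Dense (ratPts ℚ ℚ X s) := by
  have hs : ∀ n : ℕ, shift^[n] (Dex u v) = Dex u v := fun n =>
    Function.iterate_fixed (shift_Dex u v) n
  obtain ⟨B, hB, hχ⟩ := exists_Bex u v
  obtain ⟨x, y, hx, hy, hxy⟩ := chiQ_real u v h
  have h1 := criterion (Dex u v) (fun n => by rw [hs n]; exact window_Dex u v) (fun _ => B)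
    (fun n τ => by rw [hs n, hB]; exact isStep_Bfun u v τ) 1 (hs 1) tex
    (fun h0 => by
      have := congrFun h0 (0, 2)
      simp [tex] at this) _ (isArc_pex u v) (chiQ u v) (chiQ_irreducible u v hu hv)
    (chiQ_natDegree u v) (by
      have h2 : compB (fun _ => B) 1 = B := by
        rw [compB, compB]
        exact LinearMap.comp_id B
      rw [h2]
      exact hχ) ℝ x y hx hy hxy
  rw [cubic_Dex, fanoIdeal_C_mul 6 (by norm_num)] at h1
  exact h1

end Pool.Agent.Helper76.CY
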